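import Pool.Agent.Lib.MP_185a46_al.Defs
import Pool.Agent.Lib.MP_185a46_al.Final

/-!
# The presentation of the pure braid group by the reduced words for the full twist

For every finite Coxeter group `W` and every standard Coxeter element `c`, the pure braid group
is presented by the squares of the dual generators and the relations that equate all the reduced
words for the full twist in these squares.
-/

set_option autoImplicit false

open CoxeterSystem
open Pool.Agent.Lib.MP_185a46_al

namespace Pool.Agent.Results.MP_185a46_al.DualPresentation

/-- **The pure braid group of a finite Coxeter group is presented by the squares of the dual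
generators and the relations that equate all reduced words for the full twist.** Here `l` lists
the simple reflections, each once, in any order; the Coxeter element is `cs.wordProd l`. -/
theorem result {B W : Type*} [Group W] [Finite W] {M : CoxeterMatrix B}
    (cs : CoxeterSystem M W) (l : List B) (hnd : l.Nodup) (hall : ∀ i, i ∈ l)
    (z : PureBraid cs (cs.wordProd l)) (hz : IsFullTwist cs l z) :
    ∃ e : RedGroup cs (cs.wordProd l) z ≃* PureBraid cs (cs.wordProd l),
      ∀ t : Refl cs, e (PresentedGroup.of t) = sqgen cs (cs.wordProd l) t := by
  classical
  have : Fintype B := ⟨l.toFinset, fun i => by simp [hall i]⟩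
  have h : Complete l := ⟨hnd, hall⟩
  rcases hz with rfl | ⟨ω, hω, hdesc, hz⟩
  · obtain ⟨w₀, hw₀⟩ := exists_top cs
    obtain ⟨r, hr⟩ := twist_power h hw₀
    refine presentation h hw₀ _ r ?_
    rw [← hr]
    show alpha cs h (wordLift cs (cs.wordProd l) l ^ orderOf (cs.wordProd l)) = _
    rw [map_pow, alpha_wordLift]
  · refine presentation h (w₀ := cs.wordProd ω) hdesc z [] ?_
    rw [hz, map_pow, alpha_wordLift, sg_wordProd cs hω, pow_two]
    simp

end Pool.Agent.Results.MP_185a46_al.DualPresentation
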